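import Pool.Agent.Y666.Bridged2

set_option autoImplicit false

namespace Pool.Agent.Y666.Bridged

open SimpleGraph

variable {V : Type*}

/-- a base point of the component of `x` -/
noncomputable def bas (G : SimpleGraph V) (x : V) : V := (G.connectedComponentMk x).out

lemma bas_reach (G : SimpleGraph V) (x : V) : G.Reachable (bas G x) x :=
  ConnectedComponent.exact (Quot.out_eq (G.connectedComponentMk x))

lemma bas_eq {G : SimpleGraph V} {x y : V} (h : G.Adj x y) : bas G x = bas G y := by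
  unfold bas
  rw [ConnectedComponent.sound h.reachable]

noncomputable def lev (G : SimpleGraph V) (x : V) : ℕ := G.dist (bas G x) x

section

variable {G : SimpleGraph V}

lemma lev_le {x y : V} (h : G.Adj x y) : lev G y ≤ lev G x + 1 := by
  unfold lev
  rw [bas_eq h]
  exact adj_le h

lemma lev_zero {x y : V} (h : bas G x = bas G y) (hx : lev G x = 0) (hy : lev G y = 0) : x = y :=
  (eq_of_dist_zero (bas_reach G x) hx).symm.trans (h.trans (eq_of_dist_zero (bas_reach G y) hy))

lemma lF1 (hG : Br G) {x y z : V} (hxy : G.Adj x y) (hxz : G.Adj x z)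
    (hy : lev G y + 1 = lev G x) (hz : lev G z + 1 = lev G x) : y = z ∨ G.Adj y z := by
  unfold lev at hy hz
  rw [← bas_eq hxy] at hy
  rw [← bas_eq hxz] at hz
  exact (F12 hG (G.dist (bas G x) x)).1 (bas G x) x y z (bas_reach G x) hxy hxz rfl hy hz

lemma lF2 (hG : Br G) {x y : V} (hxy : G.Adj x y) (h : lev G x = lev G y) (h1 : 1 ≤ lev G x) :
    ∃ z, G.Adj x z ∧ G.Adj y z ∧ lev G z + 1 = lev G x := by
  unfold lev at h h1
  rw [← bas_eq hxy] at h
  obtain ⟨z, hz1, hz2, hz3⟩ := (F12 hG (G.dist (bas G x) x)).2 (bas G x) x y (bas_reach G x) hxy rfl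
    h.symm h1
  refine ⟨z, hz1, hz2, ?_⟩
  unfold lev
  rw [← bas_eq hz1]
  exact hz3

lemma lpar {x : V} (h1 : 1 ≤ lev G x) : ∃ z, G.Adj x z ∧ lev G z + 1 = lev G x := by
  obtain ⟨y, hy1, hy2⟩ := exists_parent (bas_reach G x) h1
  refine ⟨y, hy1.symm, ?_⟩
  unfold lev
  rw [bas_eq hy1]
  exact hy2

end

/-- closure under chosen parents -/
inductive Cl (G : SimpleGraph V) (S : Set V) (pr : V → V) (pr2 : V → V → V) : V → Prop
  | base {x : V} : x ∈ S → Cl G S pr pr2 x
  | par {x : V} : Cl G S pr pr2 x → 1 ≤ lev G x → Cl G S pr pr2 (pr x)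
  | par2 {x y : V} : Cl G S pr pr2 x → Cl G S pr pr2 y → G.Adj x y → lev G x = lev G y →
      1 ≤ lev G x → Cl G S pr pr2 (pr2 x y)

lemma exists_closed {G : SimpleGraph V} (hG : Br G) (S : Finset V) :
    ∃ F : Finset V, S ⊆ F ∧ (∀ x ∈ F, 1 ≤ lev G x → ∃ u ∈ F, G.Adj x u ∧ lev G u + 1 = lev G x) ∧
      (∀ x ∈ F, ∀ y ∈ F, G.Adj x y → lev G x = lev G y → 1 ≤ lev G x →
        ∃ u ∈ F, G.Adj x u ∧ G.Adj y u ∧ lev G u + 1 = lev G x) := by
  classical
  have h1 : ∀ x : V, ∃ z, 1 ≤ lev G x → G.Adj x z ∧ lev G z + 1 = lev G x := by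
    intro x
    by_cases h : 1 ≤ lev G x
    · obtain ⟨z, hz⟩ := lpar h
      exact ⟨z, fun _ => hz⟩
    · exact ⟨x, fun h' => (h h').elim⟩
  have h2 : ∀ x y : V, ∃ z, G.Adj x y → lev G x = lev G y → 1 ≤ lev G x →
      G.Adj x z ∧ G.Adj y z ∧ lev G z + 1 = lev G x := by
    intro x y
    by_cases h : G.Adj x y ∧ lev G x = lev G y ∧ 1 ≤ lev G x
    · obtain ⟨z, hz⟩ := lF2 hG h.1 h.2.1 h.2.2
      exact ⟨z, fun _ _ _ => hz⟩
    · exact ⟨x, fun a b c => (h ⟨a, b, c⟩).elim⟩
  choose pr hpr using h1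
  choose pr2 hpr2 using h2
  set C : V → Prop := Cl G (S : Set V) pr pr2 with hC
  obtain ⟨L, hL⟩ : ∃ L : ℕ, ∀ x ∈ S, lev G x ≤ L :=
    ⟨S.sup (lev G), fun x hx => Finset.le_sup (f := lev G) hx⟩
  have hCL : ∀ x, C x → lev G x ≤ L := by
    intro x hx
    induction hx with
    | base h => exact hL _ (by simpa using h)
    | par h h1 ih => have := (hpr _ h1).2; omega
    | par2 h h' ha he h1 ih ih' => have := (hpr2 _ _ ha he h1).2.2; omega
  have hfin : ∀ d j, j + d = L + 1 → {v | C v ∧ lev G v = j}.Finite := by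
    intro d
    induction d with
    | zero =>
      intro j hj
      convert Set.finite_empty
      ext v
      simp only [Set.mem_setOf_eq, Set.mem_empty_iff_false, iff_false, not_and]
      intro hv
      have := hCL v hv
      omega
    | succ d ih =>
      intro j hj
      have ih' := ih (j + 1) (by omega)
      refine ((S.finite_toSet.union (ih'.image pr)).union
        (Set.Finite.image2 pr2 ih' ih')).subset ?_
      rintro v ⟨hv, hvj⟩
      cases hv with
      | base h => exact Or.inl (Or.inl h)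
      | @par x h h1 =>
        refine Or.inl (Or.inr ⟨x, ⟨h, ?_⟩, rfl⟩)
        have := (hpr _ h1).2
        omega
      | @par2 x y h h' ha he h1 =>
        have := (hpr2 _ _ ha he h1).2.2
        exact Or.inr ⟨x, ⟨h, by omega⟩, y, ⟨h', by omega⟩, rfl⟩
  have hfinC : {v | C v}.Finite := by
    have : {v | C v} ⊆ ⋃ j ∈ Set.Iic L, {v | C v ∧ lev G v = j} := by
      intro v hv
      simp only [Set.mem_iUnion]
      exact ⟨lev G v, hCL v hv, hv, rfl⟩
    refine Set.Finite.subset (Set.Finite.biUnion (Set.finite_Iic L) ?_) this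
    intro j hj
    exact hfin (L + 1 - j) j (by simp only [Set.mem_Iic] at hj; omega)
  refine ⟨hfinC.toFinset, ?_, ?_, ?_⟩
  · intro x hx
    rw [Set.Finite.mem_toFinset]
    exact Cl.base (by simpa using hx)
  · intro x hx h1
    rw [Set.Finite.mem_toFinset] at hx
    refine ⟨pr x, ?_, hpr x h1⟩
    rw [Set.Finite.mem_toFinset]
    exact Cl.par hx h1
  · intro x hx y hy hxy he h1
    rw [Set.Finite.mem_toFinset] at hx hy
    refine ⟨pr2 x y, ?_, hpr2 x y hxy he h1⟩
    rw [Set.Finite.mem_toFinset]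
    exact Cl.par2 hx hy hxy he h1

section rank

variable (G : SimpleGraph V) (F : Finset V) (idx : V → ℕ) (M : ℕ)

/-- ranks within a level -/
noncomputable def R : ℕ → V → ℕ
  | 0, x => idx x
  | k + 1, x => M * sInf {r | ∃ u ∈ F, G.Adj x u ∧ lev G u = k ∧ R k u = r} + idx x

noncomputable def mu (k : ℕ) (x : V) : ℕ :=
  sInf {r | ∃ u ∈ F, G.Adj x u ∧ lev G u = k ∧ R G F idx M k u = r}

lemma R_succ (k : ℕ) (x : V) : R G F idx M (k + 1) x = M * mu G F idx M k x + idx x := rfl

variable {G F idx M}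

lemma mu_le {k : ℕ} {x u : V} (hu : u ∈ F) (hxu : G.Adj x u) (hl : lev G u = k) :
    mu G F idx M k x ≤ R G F idx M k u :=
  Nat.sInf_le ⟨u, hu, hxu, hl, rfl⟩

lemma mu_mem {k : ℕ} {x : V} (h : ∃ u ∈ F, G.Adj x u ∧ lev G u = k) :
    ∃ u ∈ F, G.Adj x u ∧ lev G u = k ∧ R G F idx M k u = mu G F idx M k x := by
  obtain ⟨u, hu, hxu, hl⟩ := h
  exact Nat.sInf_mem (s := {r | ∃ u ∈ F, G.Adj x u ∧ lev G u = k ∧ R G F idx M k u = r})
    ⟨_, u, hu, hxu, hl, rfl⟩

lemma R_inj (hidx : ∀ x ∈ F, ∀ y ∈ F, idx x = idx y → x = y) (hM : ∀ x ∈ F, idx x < M) (k : ℕ)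
    {x y : V} (hx : x ∈ F) (hy : y ∈ F) (h : R G F idx M k x = R G F idx M k y) : x = y := by
  cases k with
  | zero => exact hidx x hx y hy h
  | succ k =>
    rw [R_succ, R_succ] at h
    have := congrArg (· % M) h
    simp only [Nat.mul_add_mod, Nat.mod_eq_of_lt (hM x hx), Nat.mod_eq_of_lt (hM y hy)] at this
    exact hidx x hx y hy this

lemma mu_mono (hM : ∀ x ∈ F, idx x < M) {k : ℕ} {x y : V} (hx : x ∈ F)
    (h : R G F idx M (k + 1) y < R G F idx M (k + 1) x) :
    mu G F idx M k y ≤ mu G F idx M k x := by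
  rw [R_succ, R_succ] at h
  by_contra hh
  have h1 : mu G F idx M k x + 1 ≤ mu G F idx M k y := by omega
  have h2 := Nat.mul_le_mul_left M h1
  have h3 := hM x hx
  rw [Nat.mul_add] at h2
  omega

lemma key (hG : Br G) (hidx : ∀ x ∈ F, ∀ y ∈ F, idx x = idx y → x = y) (hM : ∀ x ∈ F, idx x < M)
    (hC1 : ∀ x ∈ F, 1 ≤ lev G x → ∃ u ∈ F, G.Adj x u ∧ lev G u + 1 = lev G x)
    (hC2 : ∀ x ∈ F, ∀ y ∈ F, G.Adj x y → lev G x = lev G y → 1 ≤ lev G x →
        ∃ u ∈ F, G.Adj x u ∧ G.Adj y u ∧ lev G u + 1 = lev G x) :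
    ∀ (k : ℕ) (x y u : V), x ∈ F → y ∈ F → u ∈ F → lev G x = k + 1 → lev G y = k + 1 →
      G.Adj x y → R G F idx M (k + 1) y < R G F idx M (k + 1) x → G.Adj x u → lev G u = k →
      R G F idx M k u = mu G F idx M k x → G.Adj u y := by
  intro k
  induction k with
  | zero =>
    intro x y u hx hy hu lx ly hxy hR hxu lu hmu
    obtain ⟨c, hc, hxc, hyc, lc⟩ := hC2 x hx y hy hxy (by omega) (by omega)
    have : u = c := lev_zero ((bas_eq hxu).symm.trans (bas_eq hxc)) lu (by omega)
    rw [this]; exact hyc.symm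
  | succ k ih =>
    intro x y u hx hy hu lx ly hxy hR hxu lu hmu
    obtain ⟨c, hc, hxc, hyc, lc⟩ := hC2 x hx y hy hxy (by omega) (by omega)
    by_contra hn
    have huc' : u ≠ c := fun h => hn (h ▸ hyc.symm)
    have huc : G.Adj u c := by
      rcases lF1 hG hxu hxc (by omega) (by omega) with h | h
      · exact (huc' h).elim
      · exact h
    obtain ⟨u', hu', hyu', lu', hmu'⟩ := mu_mem (G := G) (F := F) (idx := idx) (M := M)
      (k := k + 1) (x := y) ⟨c, hc, hyc, by omega⟩
    have hmm := mu_mono (G := G) (F := F) (idx := idx) (M := M) hM hx hR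
    have hne : u ≠ u' := fun h => hn (h ▸ hyu'.symm)
    have hnx : ¬ G.Adj x u' := by
      intro h
      have e1 := mu_le (G := G) (F := F) (idx := idx) (M := M) hu' h lu'
      exact hne (R_inj (G := G) hidx hM (k + 1) hu hu' (by omega))
    have hu'c : G.Adj u' c := by
      rcases lF1 hG hyu' hyc (by omega) (by omega) with h | h
      · exact (hnx (h ▸ hxc)).elim
      · exact h
    have dxu' : x ≠ u' := fun h => by
      have := congrArg (lev G) h
      omega
    have duy : u ≠ y := fun h => by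
      have := congrArg (lev G) h
      omega
    have huu' : ¬ G.Adj u u' := fun h => noC4 hG hxu h hyu'.symm hxy.symm dxu' duy hnx hn
    have r1 : R G F idx M (k + 1) u' < R G F idx M (k + 1) u := by
      rcases Nat.lt_or_ge (R G F idx M (k + 1) u') (R G F idx M (k + 1) u) with h | h
      · exact h
      · exact (hne (R_inj (G := G) hidx hM (k + 1) hu hu' (by omega))).elim
    have r2 : R G F idx M (k + 1) u < R G F idx M (k + 1) c := by
      have e1 := mu_le (G := G) (F := F) (idx := idx) (M := M) (k := k + 1) hc hxc (by omega)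
      rcases Nat.lt_or_ge (R G F idx M (k + 1) u) (R G F idx M (k + 1) c) with h | h
      · exact h
      · exact (huc' (R_inj (G := G) hidx hM (k + 1) hu hc (by omega))).elim
    obtain ⟨t0, ht0, hct0, lt0⟩ := hC1 c hc (by omega)
    obtain ⟨t, ht, hct, lt, hmt⟩ := mu_mem (G := G) (F := F) (idx := idx) (M := M)
      (k := k) (x := c) ⟨t0, ht0, hct0, by omega⟩
    have a1 := ih c u t hc hu ht (by omega) (by omega) huc.symm r2 hct lt hmt
    have a2 := ih c u' t hc hu' ht (by omega) (by omega) hu'c.symm (r1.trans r2) hct lt hmt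
    have dtx : t ≠ x := fun h => by
      have := congrArg (lev G) h
      omega
    have dty : t ≠ y := fun h => by
      have := congrArg (lev G) h
      omega
    have ntx : ¬ G.Adj t x := fun h => by
      have := lev_le h
      omega
    have nty : ¬ G.Adj t y := fun h => by
      have := lev_le h
      omega
    exact noC5 hG a1 hxu.symm hxy hyu' a2.symm dtx dty duy hne dxu' ntx nty hn huu' hnx

end rank

lemma Br_closed {G : SimpleGraph V} (hG : Br G) {F : Finset V}
    (hC1 : ∀ x ∈ F, 1 ≤ lev G x → ∃ u ∈ F, G.Adj x u ∧ lev G u + 1 = lev G x)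
    (hC2 : ∀ x ∈ F, ∀ y ∈ F, G.Adj x y → lev G x = lev G y → 1 ≤ lev G x →
        ∃ u ∈ F, G.Adj x u ∧ G.Adj y u ∧ lev G u + 1 = lev G x) :
    Br (Gr G (F : Set V)) := by
  classical
  obtain ⟨idx, M, hidx, hM⟩ : ∃ (idx : V → ℕ) (M : ℕ),
      (∀ x ∈ F, ∀ y ∈ F, idx x = idx y → x = y) ∧ (∀ x ∈ F, idx x < M) := by
    refine ⟨fun x => F.toList.idxOf x, F.toList.length, ?_, ?_⟩
    · intro x hx y hy h
      exact (List.idxOf_inj (by simpa using hx)).1 h
    · intro x hx
      exact List.idxOf_lt_length_of_mem (by simpa using hx)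
  set κ : V → ℕ ×ₗ ℕ := fun x => toLex (lev G x, R G F idx M (lev G x) x) with hκ
  suffices H : ∀ s : Finset V, (s ⊆ F ∧ ∀ y ∈ F, ∀ z ∈ s, κ y < κ z → y ∈ s) →
      Br (Gr G (s : Set V)) from H F ⟨subset_rfl, fun y hy _ _ _ => hy⟩
  intro s
  induction s using Finset.induction_on_max_value κ with
  | empty =>
    intro _ n f hn _ hfa _
    have := (hfa 0 (by omega)).2.1
    simp at this
  | insert a s ha hmax ih =>
    rintro ⟨hsF, hdown⟩
    have haF : a ∈ F := hsF (Finset.mem_insert_self _ _)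
    have hsF' : s ⊆ F := fun x hx => hsF (Finset.mem_insert_of_mem hx)
    have hB : Br (Gr G (s : Set V)) := by
      refine ih ⟨hsF', ?_⟩
      intro y hy z hz hlt
      have := hdown y hy z (Finset.mem_insert_of_mem hz) hlt
      rcases Finset.mem_insert.1 this with h | h
      · exact absurd (hlt.trans_le (hmax z hz)) (by rw [h]; exact lt_irrefl _)
      · exact h
    rw [Finset.coe_insert]
    have hlev : ∀ y ∈ s, lev G y < lev G a ∨ (lev G y = lev G a ∧
        R G F idx M (lev G a) y < R G F idx M (lev G a) a) := by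
      intro y hy
      have h1 := hmax y hy
      rw [hκ] at h1
      simp only [Prod.Lex.toLex_le_toLex] at h1
      rcases h1 with h1 | ⟨h1, h2⟩
      · exact Or.inl h1
      · refine Or.inr ⟨h1, ?_⟩
        rw [h1] at h2
        rcases h2.lt_or_eq with h3 | h3
        · exact h3
        · exact (ha ((R_inj (G := G) hidx hM _ (hsF' hy) haF h3) ▸ hy)).elim
    refine Br_insert hG hB (by simpa using ha) ?_
    rcases Nat.eq_zero_or_pos (lev G a) with h0 | h0
    · left
      intro y hy hay
      have hy' : y ∈ s := by simpa using hy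
      have hly : lev G y = 0 := by
        rcases hlev y hy' with h | h
        · omega
        · omega
      exact hay.ne (lev_zero (bas_eq hay) h0 hly)
    · right
      obtain ⟨k, hk⟩ : ∃ k, lev G a = k + 1 := ⟨lev G a - 1, by omega⟩
      obtain ⟨t0, ht0, hat0, lt0⟩ := hC1 a haF h0
      obtain ⟨p, hp, hap, lp, hmp⟩ := mu_mem (G := G) (F := F) (idx := idx) (M := M)
        (k := k) (x := a) ⟨t0, ht0, hat0, by omega⟩
      have hps : p ∈ s := by
        have hlt : κ p < κ a := by
          rw [hκ]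
          simp only [Prod.Lex.toLex_lt_toLex]
          left
          omega
        rcases Finset.mem_insert.1 (hdown p hp a (Finset.mem_insert_self _ _) hlt) with h | h
        · exact (hap.ne h.symm).elim
        · exact h
      refine ⟨p, by simpa using hps, hap, ?_⟩
      intro y hy hay
      have hy' : y ∈ s := by simpa using hy
      rcases hlev y hy' with h | ⟨h, h'⟩
      · have := lev_le hay.symm
        rcases lF1 hG hay hap (by omega) (by omega) with h2 | h2
        · exact Or.inl h2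
        · exact Or.inr h2.symm
      · rw [hk] at h'
        exact Or.inr (key hG hidx hM hC1 hC2 k a y p haF (hsF' hy') hp hk (by omega) hay h' hap lp
          hmp)

theorem exists_finite {G : SimpleGraph V} (hG : Br G) (S : Finset V) :
    ∃ F : Finset V, S ⊆ F ∧ Br (Gr G (F : Set V)) := by
  obtain ⟨F, h1, h2, h3⟩ := exists_closed hG S
  exact ⟨F, h1, Br_closed hG h2 h3⟩

/-! ### Translation to walks -/

lemma exists_walk_fun {G : SimpleGraph V} (f : ℕ → V) :
    ∀ n, (∀ i < n, G.Adj (f i) (f (i + 1))) →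
      ∃ w : G.Walk (f 0) (f n), w.length = n ∧ ∀ i ≤ n, w.getVert i = f i := by
  intro n
  induction n with
  | zero => intro _; exact ⟨Walk.nil, rfl, fun i hi => by simp [Nat.le_zero.1 hi]⟩
  | succ n ih =>
    intro h
    obtain ⟨w, hw1, hw2⟩ := ih (fun i hi => h i (by omega))
    refine ⟨w.concat (h n (by omega)), by simp [hw1], ?_⟩
    intro i hi
    rcases hi.lt_or_eq with h' | h'
    · rw [← hw2 i (by omega), Walk.concat_eq_append, Walk.getVert_append]
      rcases Nat.lt_or_ge i w.length with h3 | h3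
      · simp [h3]
      · have : i = w.length := by omega
        simp [this]
    · subst h'
      exact Walk.getVert_of_length_le _ (by simp [hw1])

lemma Br_of_walks {G : SimpleGraph V}
    (h : ∀ (u : V) (c : G.Walk u u), c.IsCycle → 4 ≤ c.length →
        ∃ i j : ℕ, i ≤ j ∧ j < c.length ∧
          G.dist (c.getVert i) (c.getVert j) < min (j - i) (c.length - (j - i))) : Br G := by
  intro n f hn hf0 hfa hfi
  obtain ⟨w, hw1, hw2⟩ := exists_walk_fun f n hfa
  obtain ⟨c, hc1, hc2⟩ : ∃ c : G.Walk (f 0) (f 0), c.length = n ∧ ∀ i ≤ n, c.getVert i = f i := by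
    refine ⟨w.copy rfl hf0, by simpa using hw1, ?_⟩
    intro i hi
    rw [Walk.getVert_copy]
    exact hw2 i hi
  have hcyc : c.IsCycle := by
    rw [Walk.isCycle_iff_isPath_tail_and_le_length]
    refine ⟨?_, by omega⟩
    rw [← Walk.IsPath.getVert_injOn_iff]
    have hnn : ¬ c.Nil := by
      intro hh
      have := hh.length_eq_zero
      omega
    have hlt : c.tail.length + 1 = c.length := Walk.length_tail_add_one hnn
    intro i hi j hj hij
    simp only [Set.mem_setOf_eq] at hi hj
    rw [Walk.getVert_tail, Walk.getVert_tail, hc2 _ (by omega), hc2 _ (by omega)] at hij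
    rcases Nat.lt_or_ge (i + 1) n with h1 | h1 <;> rcases Nat.lt_or_ge (j + 1) n with h2 | h2
    · have := hfi (i + 1) h1 (j + 1) h2 hij
      omega
    · have e : j + 1 = n := by omega
      rw [e, hf0] at hij
      have := hfi (i + 1) h1 0 (by omega) hij
      omega
    · have e : i + 1 = n := by omega
      rw [e, hf0] at hij
      have := hfi 0 (by omega) (j + 1) h2 hij
      omega
    · omega
  obtain ⟨i, j, hij, hj, hd⟩ := h (f 0) c hcyc (by omega)
  rw [hc1] at hj hd
  rw [hc2 i (by omega), hc2 j (by omega)] at hd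
  exact ⟨i, j, by omega, hj, hd⟩

lemma walk_induce {G : SimpleGraph V} {T : Set V} {a b : V} (w : (Gr G T).Walk a b) :
    ∀ (ha : a ∈ T) (hb : b ∈ T), ∃ w' : (G.induce T).Walk ⟨a, ha⟩ ⟨b, hb⟩, w'.length = w.length := by
  induction w with
  | nil => intro ha hb; exact ⟨Walk.nil, rfl⟩
  | cons h p ih =>
    intro ha hb
    obtain ⟨w', hw'⟩ := ih h.2.2 hb
    exact ⟨Walk.cons (by simpa using h.1) w', by simp [hw']⟩

lemma walks_of_Br {G : SimpleGraph V} {T : Set V} (hB : Br (Gr G T)) (u : T)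
    (c : (G.induce T).Walk u u) (hc : c.IsCycle) (h4 : 4 ≤ c.length) :
    ∃ i j : ℕ, i ≤ j ∧ j < c.length ∧
      (G.induce T).dist (c.getVert i) (c.getVert j) < min (j - i) (c.length - (j - i)) := by
  have hadj : ∀ i < c.length, (Gr G T).Adj (c.getVert i : V) (c.getVert (i + 1) : V) := by
    intro i hi
    have := c.adj_getVert_succ hi
    exact ⟨by simpa using this, Subtype.coe_prop _, Subtype.coe_prop _⟩
  obtain ⟨i, j, hij, hj, hd⟩ := hB c.length (fun i => (c.getVert i : V)) h4 (by simp) hadj (by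
    intro i hi j hj h
    exact hc.getVert_injOn' (by simp only [Set.mem_setOf_eq]; omega)
      (by simp only [Set.mem_setOf_eq]; omega) (Subtype.ext h))
  refine ⟨i, j, hij.le, hj, lt_of_le_of_lt ?_ hd⟩
  have hr := (walk_le (A := Gr G T) (g := fun i => (c.getVert i : V)) hij.le
    (fun k hk hk' => hadj k (by omega))).1
  obtain ⟨w, hw⟩ := hr.exists_walk_length_eq_dist
  obtain ⟨w', hw'⟩ := walk_induce w (Subtype.coe_prop _) (Subtype.coe_prop _)
  rw [← hw, ← hw']
  exact dist_le w'

theorem main (V : Type) (G : SimpleGraph V)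
    (h : ∀ (u : V) (c : G.Walk u u), c.IsCycle → 4 ≤ c.length →
        ∃ i j : ℕ, i ≤ j ∧ j < c.length ∧
          G.dist (c.getVert i) (c.getVert j) < min (j - i) (c.length - (j - i)))
    (S : Finset V) : ∃ T : Finset V, S ⊆ T ∧
        ∀ (u : (T : Set V)) (c : (G.induce (T : Set V)).Walk u u), c.IsCycle → 4 ≤ c.length →
          ∃ i j : ℕ, i ≤ j ∧ j < c.length ∧
            (G.induce (T : Set V)).dist (c.getVert i) (c.getVert j)
              < min (j - i) (c.length - (j - i)) := by
  obtain ⟨F, h1, h2⟩ := exists_finite (Br_of_walks h) S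
  exact ⟨F, h1, fun u c hc h4 => walks_of_Br h2 u c hc h4⟩

end Pool.Agent.Y666.Bridged
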