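import Mathlib

set_option autoImplicit false

namespace Pool.Agent.Y666.Bridged

open SimpleGraph

variable {V : Type*}

/-- Every cycle of length at least four has a shortcut; cycles are given as functions. -/
def Br (G : SimpleGraph V) : Prop :=
  ∀ (n : ℕ) (f : ℕ → V), 4 ≤ n → f n = f 0 → (∀ i < n, G.Adj (f i) (f (i + 1))) →
    (∀ i < n, ∀ j < n, f i = f j → i = j) →
    ∃ i j, i < j ∧ j < n ∧ G.dist (f i) (f j) < min (j - i) (n - (j - i))

/-! ### Basic facts on distances -/

section basic

variable {G : SimpleGraph V}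

lemma adj_dist {x y : V} (h : G.Adj x y) : G.dist x y = 1 := dist_eq_one_iff_adj.2 h

lemma adj_le {v x y : V} (h : G.Adj x y) : G.dist v y ≤ G.dist v x + 1 := by
  have := (h.reachable).dist_triangle_right v
  rw [adj_dist h] at this
  exact this

lemma adj_le' {v x y : V} (h : G.Adj x y) : G.dist v x ≤ G.dist v y + 1 := adj_le h.symm

lemma eq_of_dist_zero {v x : V} (h : G.Reachable v x) (h0 : G.dist v x = 0) : v = x :=
  h.dist_eq_zero_iff.1 h0

lemma exists_parent {v x : V} (h : G.Reachable v x) (h1 : 1 ≤ G.dist v x) :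
    ∃ y, G.Adj y x ∧ G.dist v y + 1 = G.dist v x := by
  obtain ⟨w, hw⟩ := h.exists_walk_length_eq_dist
  have hnn : ¬ w.reverse.Nil := by
    intro hn
    have := hn.length_eq_zero
    simp only [Walk.length_reverse] at this
    omega
  set r := w.reverse with hr
  obtain ⟨y, hxy, q, hq⟩ := Walk.not_nil_iff.1 hnn
  have hlen : q.length + 1 = G.dist v x := by
    have h2 : r.length = q.length + 1 := by rw [hq]; simp
    have h3 : r.length = w.length := by rw [hr]; simp
    omega
  refine ⟨y, hxy.symm, ?_⟩
  have h4 : G.dist v y ≤ q.length := by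
    rw [SimpleGraph.dist_comm]; exact dist_le q
  have h5 := adj_le (v := v) hxy.symm
  omega

/-- a geodesic as a function -/
lemma exists_geod {v x : V} (h : G.Reachable v x) :
    ∃ p : ℕ → V, p 0 = v ∧ p (G.dist v x) = x ∧
      (∀ i < G.dist v x, G.Adj (p i) (p (i + 1))) ∧ (∀ i ≤ G.dist v x, G.dist v (p i) = i) ∧
      (∀ i ≤ G.dist v x, G.dist (p i) x = G.dist v x - i) := by
  obtain ⟨w, hw⟩ := h.exists_walk_length_eq_dist
  refine ⟨w.getVert, by simp, by rw [← hw]; simp, ?_, ?_, ?_⟩
  · intro i hi
    exact w.adj_getVert_succ (by omega)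
  · intro i hi
    have h1 : G.dist v (w.getVert i) ≤ i := by
      have := dist_le (w.take i)
      rw [Walk.take_length] at this
      omega
    have h2 : G.dist (w.getVert i) x ≤ w.length - i := by
      have := dist_le (w.drop i)
      rw [Walk.drop_length] at this
      exact this
    have h3 := (w.take i).reachable.dist_triangle_left x
    omega
  · intro i hi
    have h1 : G.dist v (w.getVert i) ≤ i := by
      have := dist_le (w.take i)
      rw [Walk.take_length] at this
      omega
    have h2 : G.dist (w.getVert i) x ≤ w.length - i := by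
      have := dist_le (w.drop i)
      rw [Walk.drop_length] at this
      exact this
    have h3 := (w.take i).reachable.dist_triangle_left x
    omega

end basic

/-! ### No induced 4- and 5-cycles -/

lemma noC4 {G : SimpleGraph V} (hG : Br G) {a b c d : V} (hab : G.Adj a b) (hbc : G.Adj b c)
    (hcd : G.Adj c d) (hda : G.Adj d a) (hac : a ≠ c) (hbd : b ≠ d) (h1 : ¬ G.Adj a c)
    (h2 : ¬ G.Adj b d) : False := by
  obtain ⟨f, f0, f1, f2, f3, f4⟩ : ∃ f : ℕ → V, f 0 = a ∧ f 1 = b ∧ f 2 = c ∧ f 3 = d ∧
      f 4 = a := ⟨fun i => if i = 0 then a else if i = 1 then b else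
    if i = 2 then c else if i = 3 then d else a, by simp, by simp, by simp, by simp, by simp⟩
  obtain ⟨i, j, hij, hj, hd⟩ := hG 4 f le_rfl (by rw [f0, f4]) (by
      intro i hi
      interval_cases i <;> simp [f0, f1, f2, f3, f4, hab, hbc, hcd, hda]) (by
      intro i hi j hj h
      interval_cases i <;> interval_cases j <;> simp_all [hab.ne, hbc.ne, hcd.ne, hda.ne,
        hab.ne', hbc.ne', hcd.ne', hda.ne', hac.symm, hbd.symm])
  have r1 : G.Reachable a c := hab.reachable.trans hbc.reachable
  have r2 : G.Reachable b d := hbc.reachable.trans hcd.reachable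
  have e1 := r1.one_lt_dist_of_ne_of_not_adj hac h1
  have e2 := r2.one_lt_dist_of_ne_of_not_adj hbd h2
  have d1 := adj_dist hab
  have d2 := adj_dist hbc
  have d3 := adj_dist hcd
  have d4 := adj_dist hda.symm
  interval_cases j <;> interval_cases i <;> simp only [f0, f1, f2, f3] at hd <;> omega

lemma noC5 {G : SimpleGraph V} (hG : Br G) {a b c d e : V} (hab : G.Adj a b) (hbc : G.Adj b c)
    (hcd : G.Adj c d) (hde : G.Adj d e) (hea : G.Adj e a) (hac : a ≠ c) (had : a ≠ d)
    (hbd : b ≠ d) (hbe : b ≠ e) (hce : c ≠ e) (h1 : ¬ G.Adj a c) (h2 : ¬ G.Adj a d)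
    (h3 : ¬ G.Adj b d) (h4 : ¬ G.Adj b e) (h5 : ¬ G.Adj c e) : False := by
  obtain ⟨f, f0, f1, f2, f3, f4, f5⟩ : ∃ f : ℕ → V, f 0 = a ∧ f 1 = b ∧ f 2 = c ∧ f 3 = d ∧
      f 4 = e ∧ f 5 = a := ⟨fun i => if i = 0 then a else if i = 1 then b else
    if i = 2 then c else if i = 3 then d else if i = 4 then e else a,
      by simp, by simp, by simp, by simp, by simp, by simp⟩
  obtain ⟨i, j, hij, hj, hd⟩ := hG 5 f (by norm_num) (by rw [f0, f5]) (by
      intro i hi
      interval_cases i <;> simp [f0, f1, f2, f3, f4, f5, hab, hbc, hcd, hde, hea]) (by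
      intro i hi j hj h
      interval_cases i <;> interval_cases j <;> simp_all [hab.ne, hbc.ne, hcd.ne, hde.ne, hea.ne,
        hab.ne', hbc.ne', hcd.ne', hde.ne', hea.ne', hac.symm, hbd.symm, had.symm, hbe.symm,
        hce.symm])
  have r1 : G.Reachable a c := hab.reachable.trans hbc.reachable
  have r2 : G.Reachable a d := r1.trans hcd.reachable
  have r3 : G.Reachable b d := hbc.reachable.trans hcd.reachable
  have r4 : G.Reachable b e := r3.trans hde.reachable
  have r5 : G.Reachable c e := hcd.reachable.trans hde.reachable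
  have e1 := r1.one_lt_dist_of_ne_of_not_adj hac h1
  have e2 := r2.one_lt_dist_of_ne_of_not_adj had h2
  have e3 := r3.one_lt_dist_of_ne_of_not_adj hbd h3
  have e4 := r4.one_lt_dist_of_ne_of_not_adj hbe h4
  have e5 := r5.one_lt_dist_of_ne_of_not_adj hce h5
  have d1 := adj_dist hab
  have d2 := adj_dist hbc
  have d3 := adj_dist hcd
  have d4 := adj_dist hde
  have d5 := adj_dist hea.symm
  interval_cases j <;> interval_cases i <;> simp only [f0, f1, f2, f3, f4] at hd <;> omega

/-! ### The two level conditions -/

def F1 (G : SimpleGraph V) (k : ℕ) : Prop :=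
  ∀ v x y z : V, G.Reachable v x → G.Adj x y → G.Adj x z →
    G.dist v x = k → G.dist v y + 1 = k → G.dist v z + 1 = k → y = z ∨ G.Adj y z

def F2 (G : SimpleGraph V) (k : ℕ) : Prop :=
  ∀ v x y : V, G.Reachable v x → G.Adj x y → G.dist v x = k → G.dist v y = k → 1 ≤ k →
    ∃ z, G.Adj x z ∧ G.Adj y z ∧ G.dist v z + 1 = k

section levels

variable {G : SimpleGraph V}

lemma tri {v a b : V} (h : G.Reachable a b) : G.dist v b ≤ G.dist v a + G.dist a b :=
  h.dist_triangle_right v

lemma Sh {K : ℕ} (h1 : ∀ m, 2 * m ≤ K → F1 G m) (h2 : ∀ m, 2 * m + 1 ≤ K → F2 G m) :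
    ∀ (i : ℕ) (v a b : V), G.Reachable v a → G.Reachable v b → G.dist v a = i → 1 ≤ i →
      1 ≤ G.dist v b → G.dist a b < i + G.dist v b → G.dist a b + i + G.dist v b ≤ K →
      ∃ p q, G.Adj v p ∧ G.Adj v q ∧ G.dist p a + 1 = i ∧ G.dist q b + 1 = G.dist v b ∧
        (p = q ∨ G.Adj p q) := by
  intro i
  induction i with
  | zero => intro v a b _ _ _ h; omega
  | succ i ih =>
    intro v a b ra rb hi _ hj hd hK
    rcases Nat.eq_zero_or_pos i with hi0 | hi0
    · subst hi0
      have hva : G.Adj v a := dist_eq_one_iff_adj.1 (by omega)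
      have e1 : G.dist v b ≤ 1 + G.dist a b := by
        have := hva.reachable.dist_triangle_left b
        rw [adj_dist hva] at this
        exact this
      rcases Nat.lt_or_ge (G.dist a b) (G.dist v b) with hlt | hge
      · exact ⟨a, a, hva, hva, by simp, by omega, Or.inl rfl⟩
      · have e2 : G.dist a b = G.dist v b := by omega
        obtain ⟨q, hq1, hq2, hq3⟩ := h2 (G.dist v b) (by omega) b v a rb.symm hva
          (SimpleGraph.dist_comm) (by rw [SimpleGraph.dist_comm]; exact e2) hj
        refine ⟨a, q, hva, hq1, by simp, ?_, Or.inr hq2⟩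
        rw [SimpleGraph.dist_comm] at hq3
        exact hq3
    · obtain ⟨a1, ha1, hl1⟩ := exists_parent ra (by omega)
      have ra1 : G.Reachable v a1 := ra.trans ha1.symm.reachable
      have rab : G.Reachable a b := ra.symm.trans rb
      have ra1b : G.Reachable a1 b := ra1.symm.trans rb
      have k1 : G.dist a1 b ≤ G.dist a b + 1 := by
        have := ha1.reachable.dist_triangle_left b
        rw [adj_dist ha1] at this
        omega
      have k2 : G.dist a b ≤ G.dist a1 b + 1 := by
        have := ha1.symm.reachable.dist_triangle_left b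
        rw [adj_dist ha1.symm] at this
        omega
      have k3 : G.dist a1 b ≤ G.dist v a1 + G.dist v b := by
        have := ra1.symm.dist_triangle_left b
        rw [SimpleGraph.dist_comm (u := a1) (v := v)] at this
        omega
      rcases Nat.lt_or_ge (G.dist a1 b) (i + G.dist v b) with hlt | hge
      · obtain ⟨p, q, hp, hq, hpa, hqb, hpq⟩ := ih v a1 b ra1 rb (by omega) hi0 hj hlt (by omega)
        refine ⟨p, q, hp, hq, ?_, hqb, hpq⟩
        have e1 : G.dist p a ≤ G.dist p a1 + 1 := adj_le ha1
        have e2 := hp.reachable.dist_triangle_left a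
        rw [adj_dist hp] at e2
        omega
      · obtain ⟨a2, ha2, hl2⟩ := exists_parent ra1 (by omega)
        have ra2 : G.Reachable v a2 := ra1.trans ha2.symm.reachable
        have m1 : G.dist a2 b ≤ G.dist v a2 + G.dist v b := by
          have := ra2.symm.dist_triangle_left b
          rw [SimpleGraph.dist_comm (u := a2) (v := v)] at this
          omega
        have m2 : G.dist a1 b ≤ G.dist a2 b + 1 := by
          have := ha2.symm.reachable.dist_triangle_left b
          rw [adj_dist ha2.symm] at this
          omega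
        have c1 := SimpleGraph.dist_comm (G := G) (u := a1) (v := b)
        have c2 := SimpleGraph.dist_comm (G := G) (u := a) (v := b)
        have c3 := SimpleGraph.dist_comm (G := G) (u := a2) (v := b)
        rcases Nat.lt_or_ge (G.dist a b) (i + G.dist v b) with hlt' | hge'
        · exfalso
          have := h1 (i + G.dist v b) (by omega) b a1 a a2 ra1b.symm ha1 ha2.symm (by omega)
            (by omega) (by omega)
          rcases this with h | h
          · have := congrArg (G.dist v) h
            omega
          · have := adj_le' (v := v) h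
            omega
        · obtain ⟨e, he1, he2, he3⟩ := h2 (i + G.dist v b) (by omega) b a1 a ra1b.symm ha1
            (by omega) (by omega) (by omega)
          have := h1 (i + G.dist v b) (by omega) b a1 e a2 ra1b.symm he1 ha2.symm (by omega)
            (by omega) (by omega)
          rcases this with h | h
          · rw [h] at he2
            have := adj_le' (v := v) he2
            omega
          · have l1 := adj_le (v := v) h.symm
            have l2 := adj_le' (v := v) he2
            have re : G.Reachable v e := ra.trans he2.reachable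
            have c4 := SimpleGraph.dist_comm (G := G) (u := e) (v := b)
            obtain ⟨p, q, hp, hq, hpa, hqb, hpq⟩ := ih v e b re rb (by omega) hi0 hj (by omega)
              (by omega)
            refine ⟨p, q, hp, hq, ?_, hqb, hpq⟩
            have e1 : G.dist p a ≤ G.dist p e + 1 := adj_le he2.symm
            have e2 := hp.reachable.dist_triangle_left a
            rw [adj_dist hp] at e2
            omega

/-- the cycle made of two geodesics starting at `v` and a closing edge -/
lemma cyc (hG : Br G) {v : V} {s t : ℕ} {p q : ℕ → V} (hp0 : p 0 = v) (hq0 : q 0 = v)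
    (hpa : ∀ i < s, G.Adj (p i) (p (i + 1))) (hqa : ∀ i < t, G.Adj (q i) (q (i + 1)))
    (hpl : ∀ i ≤ s, G.dist v (p i) = i) (hql : ∀ i ≤ t, G.dist v (q i) = i)
    (hcl : G.Adj (p s) (q t)) (hne : ∀ i, 1 ≤ i → i ≤ s → ∀ j, 1 ≤ j → j ≤ t → p i ≠ q j)
    (h4 : 3 ≤ s + t) :
    ∃ i j, 1 ≤ i ∧ i ≤ s ∧ 1 ≤ j ∧ j ≤ t ∧ G.dist (p i) (q j) < i + j ∧
      G.dist (p i) (q j) + i + j ≤ s + t := by
  have hpr : ∀ i ≤ s, G.Reachable v (p i) := by
    intro i hi
    induction i with
    | zero => rw [hp0]
    | succ i ih => exact (ih (by omega)).trans (hpa i (by omega)).reachable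
  have hqr : ∀ i ≤ t, G.Reachable v (q i) := by
    intro i hi
    induction i with
    | zero => rw [hq0]
    | succ i ih => exact (ih (by omega)).trans (hqa i (by omega)).reachable
  obtain ⟨f, hf1, hf2⟩ : ∃ f : ℕ → V, (∀ i ≤ s, f i = p i) ∧
      (∀ i, s < i → f i = q (s + t + 1 - i)) := by
    refine ⟨fun i => if i ≤ s then p i else q (s + t + 1 - i), ?_, ?_⟩
    · intro i hi; simp [hi]
    · intro i hi; simp [Nat.not_le.2 hi]
  obtain ⟨i, j, hij, hj, hd⟩ := hG (s + t + 1) f (by omega) (by
      rw [hf1 0 (by omega), hf2 _ (by omega), hp0, Nat.sub_self, hq0]) (by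
      intro i hi
      rcases Nat.lt_trichotomy i s with h | h | h
      · rw [hf1 i h.le, hf1 (i + 1) h]; exact hpa i h
      · subst h
        rw [hf1 i le_rfl, hf2 (i + 1) (by omega)]
        have : i + t + 1 - (i + 1) = t := by omega
        rw [this]; exact hcl
      · rw [hf2 i h, hf2 (i + 1) (by omega)]
        have := (hqa (s + t + 1 - (i + 1)) (by omega)).symm
        have e : s + t + 1 - (i + 1) + 1 = s + t + 1 - i := by omega
        rw [e] at this
        exact this) (by
      have key : ∀ i j, i ≤ s → s < j → j < s + t + 1 → f i ≠ f j := by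
        intro i j hi hj hj' h
        rw [hf1 i hi, hf2 j hj] at h
        rcases Nat.eq_zero_or_pos i with h0 | h0
        · subst h0
          have e1 := hql (s + t + 1 - j) (by omega)
          rw [← h, hp0, SimpleGraph.dist_self] at e1
          omega
        · exact hne i h0 hi _ (by omega) (by omega) h
      intro i hi j hj h
      rcases Nat.lt_or_ge s i with h1 | h1 <;> rcases Nat.lt_or_ge s j with h2 | h2
      · rw [hf2 i h1, hf2 j h2] at h
        have e1 := hql (s + t + 1 - i) (by omega)
        have e2 := hql (s + t + 1 - j) (by omega)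
        rw [h] at e1
        omega
      · exact (key j i h2 h1 hi h.symm).elim
      · exact (key i j h1 h2 hj h).elim
      · rw [hf1 i h1, hf1 j h2] at h
        have e1 := hpl i h1
        have e2 := hpl j h2
        rw [h] at e1
        omega)
  rcases Nat.lt_or_ge s j with h2 | h2
  · rcases Nat.lt_or_ge s i with h1 | h1
    · exfalso
      rw [hf2 i h1, hf2 j h2] at hd
      have e1 := hql (s + t + 1 - i) (by omega)
      have e2 := hql (s + t + 1 - j) (by omega)
      have e3 : G.Reachable (q (s + t + 1 - j)) (q (s + t + 1 - i)) :=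
        (hqr _ (by omega)).symm.trans (hqr _ (by omega))
      have e4 := tri (v := v) e3
      rw [SimpleGraph.dist_comm] at hd
      omega
    · rw [hf1 i h1, hf2 j h2] at hd
      rcases Nat.eq_zero_or_pos i with h0 | h0
      · exfalso
        subst h0
        rw [hp0, hql _ (by omega)] at hd
        omega
      · exact ⟨i, s + t + 1 - j, h0, h1, by omega, by omega, by omega, by omega⟩
  · exfalso
    rw [hf1 i (by omega), hf1 j h2] at hd
    have e1 := hpl i (by omega)
    have e2 := hpl j h2
    have e3 : G.Reachable (p i) (p j) := (hpr _ (by omega)).symm.trans (hpr _ (by omega))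
    have e4 := tri (v := v) e3
    omega

lemma F1_of (hG : Br G) {k : ℕ} (h1 : ∀ m, m < k → F1 G m) (h2 : ∀ m, m < k → F2 G m) :
    F1 G k := by
  intro v x y z rx hxy hxz hx hy hz
  by_contra hcon
  have hne : y ≠ z := fun h => hcon (Or.inl h)
  have hna : ¬ G.Adj y z := fun h => hcon (Or.inr h)
  have ry : G.Reachable v y := rx.trans hxy.reachable
  have rz : G.Reachable v z := rx.trans hxz.reachable
  -- no common vertex on geodesics
  have R : ∀ w, G.Reachable v w → 1 ≤ G.dist v w → G.dist v w + G.dist w y = G.dist v y →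
      G.dist v w + G.dist w z = G.dist v z → False := by
    intro w rw1 hw1 hw2 hw3
    have rwx : G.Reachable w x := rw1.symm.trans rx
    have e1 := rwx.dist_triangle_right v
    have e2 := adj_le (v := w) hxy.symm
    exact hcon (h1 (k - G.dist v w) (by omega) w x y z rwx hxy hxz (by omega) (by omega)
      (by omega))
  have hk : 2 ≤ k := by
    by_contra hk
    have hy0 : G.dist v y = 0 := by omega
    have hz0 : G.dist v z = 0 := by omega
    exact hne ((eq_of_dist_zero ry hy0).symm.trans (eq_of_dist_zero rz hz0))
  obtain ⟨p, hp0, hpx, hpa, hpl, hpd⟩ := exists_geod ry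
  obtain ⟨q, hq0, hqx, hqa, hql, hqd⟩ := exists_geod rz
  -- extend p by x
  obtain ⟨P, hP1, hP2⟩ : ∃ P : ℕ → V, (∀ i ≤ G.dist v y, P i = p i) ∧ P (G.dist v y + 1) = x := by
    refine ⟨fun i => if i ≤ G.dist v y then p i else x, ?_, ?_⟩
    · intro i hi; simp [hi]
    · simp
  have hpr : ∀ i ≤ G.dist v y, G.Reachable v (p i) := by
    intro i hi
    induction i with
    | zero => rw [hp0]
    | succ i ih => exact (ih (by omega)).trans (hpa i (by omega)).reachable
  have hqr : ∀ i ≤ G.dist v z, G.Reachable v (q i) := by
    intro i hi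
    induction i with
    | zero => rw [hq0]
    | succ i ih => exact (ih (by omega)).trans (hqa i (by omega)).reachable
  obtain ⟨i, j, hi1, hi2, hj1, hj2, hd1, hd2⟩ := cyc hG (v := v) (s := G.dist v y + 1)
    (t := G.dist v z) (p := P) (q := q) (by rw [hP1 0 (by omega), hp0]) hq0 (by
      intro i hi
      rcases Nat.lt_or_ge i (G.dist v y) with h | h
      · rw [hP1 i h.le, hP1 (i + 1) h]; exact hpa i h
      · have : i = G.dist v y := by omega
        subst this
        rw [hP1 _ le_rfl, hP2, hpx]; exact hxy.symm) hqa (by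
      intro i hi
      rcases Nat.lt_or_ge i (G.dist v y + 1) with h | h
      · rw [hP1 i (by omega)]; exact hpl i (by omega)
      · have : i = G.dist v y + 1 := by omega
        subst this
        rw [hP2]; omega) hql (by rw [hP2, hqx]; exact hxz) (by
      intro i hi1 hi2 j hj1 hj2 h
      rcases Nat.lt_or_ge i (G.dist v y + 1) with h' | h'
      · rw [hP1 i (by omega)] at h
        have e1 := hpl i (by omega)
        have e2 := hql j (by omega)
        have e3 : i = j := by rw [← e1, ← e2, h]
        subst e3
        refine R (p i) (hpr i (by omega)) (by omega) ?_ ?_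
        · rw [hpd i (by omega), e1]; omega
        · rw [h, hqd i (by omega), e2]; omega
      · have : i = G.dist v y + 1 := by omega
        subst this
        rw [hP2] at h
        have e2 := hql j (by omega)
        rw [← h] at e2
        omega) (by omega)
  -- the shortcut does not end in x
  have hi3 : i ≤ G.dist v y := by
    by_contra hh
    have : i = G.dist v y + 1 := by omega
    subst this
    rw [hP2] at hd1 hd2
    have e1 := hql j hj2
    have e3 : G.Reachable (q j) x := (hqr j hj2).symm.trans rx
    have e2 := tri (v := v) e3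
    rw [SimpleGraph.dist_comm] at e2
    rw [SimpleGraph.dist_comm (u := q j)] at e2
    rw [SimpleGraph.dist_comm (u := x) (v := v)] at e2
    omega
  rw [hP1 i hi3] at hd1 hd2
  have li := hpl i hi3
  have lj := hql j hj2
  obtain ⟨p', q', hp', hq', hpa', hqb', hpq⟩ := Sh (K := 2 * k - 1) (fun m hm => h1 m (by omega))
    (fun m hm => h2 m (by omega)) i v (p i) (q j) (hpr i hi3) (hqr j hj2) li hi1 (by omega)
    (by omega) (by omega)
  have rp' : G.Reachable p' x := hp'.symm.reachable.trans rx
  have rp'y : G.Reachable p' y := hp'.symm.reachable.trans ry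
  have rp'z : G.Reachable p' z := hp'.symm.reachable.trans rz
  have a1 : G.dist p' y + 1 = G.dist v y := by
    have e1 := ((hpr i hi3).symm.trans ry).dist_triangle_right p'
    rw [hpd i hi3] at e1
    have e2 := rp'y.dist_triangle_right v
    rw [adj_dist hp'] at e2
    omega
  have a2 : G.dist q' z + 1 = G.dist v z := by
    have e1 := ((hqr j hj2).symm.trans rz).dist_triangle_right q'
    rw [hqd j hj2] at e1
    have e2 := (hq'.symm.reachable.trans rz).dist_triangle_right v
    rw [adj_dist hq'] at e2
    omega
  have a3 : G.dist p' z + 1 ≠ G.dist v z := by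
    intro h
    exact R p' hp'.reachable (by rw [adj_dist hp']) (by rw [adj_dist hp']; omega)
      (by rw [adj_dist hp']; omega)
  have hpq' : G.Adj p' q' := by
    rcases hpq with h | h
    · exact (a3 (by rw [h]; exact a2)).elim
    · exact h
  have a4 : G.dist p' z = G.dist v z := by
    have e1 := rp'z.dist_triangle_right v
    rw [adj_dist hp'] at e1
    have e2 := hpq'.reachable.dist_triangle_left z
    rw [adj_dist hpq'] at e2
    omega
  have a5 : G.dist p' x = k - 1 := by
    have e1 := rp'.dist_triangle_right v
    rw [adj_dist hp'] at e1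
    have e2 := adj_le (v := p') hxy.symm
    omega
  obtain ⟨u, hu1, hu2, hu3⟩ := h2 (k - 1) (by omega) p' x z rp' hxz a5 (by omega) (by omega)
  have hyu : G.Adj y u := by
    rcases h1 (k - 1) (by omega) p' x y u rp' hxy hu1 (by omega) (by omega) (by omega) with h | h
    · exact (hna (by rw [h]; exact hu2.symm)).elim
    · exact h
  have lu : G.dist v u + 1 = k := by
    have e1 := adj_le' (v := v) hu1
    have e2 := (rp'.trans hu1.reachable).dist_triangle_right v
    rw [adj_dist hp'] at e2
    omega
  have ru : G.Reachable v u := rx.trans hu1.reachable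
  obtain ⟨w, hw1, hw2, hw3⟩ := h2 (k - 1) (by omega) v u z ru hu2.symm (by omega) (by omega)
    (by omega)
  obtain ⟨w', hw1', hw2', hw3'⟩ := h2 (k - 1) (by omega) v u y ru hyu.symm (by omega) (by omega)
    (by omega)
  have nxw : ¬ G.Adj x w := fun h => by
    have := adj_le' (v := v) h
    omega
  have nxw' : ¬ G.Adj x w' := fun h => by
    have := adj_le' (v := v) h
    omega
  have dxw : x ≠ w := fun h => by
    have := congrArg (G.dist v) h
    omega
  have dxw' : x ≠ w' := fun h => by
    have := congrArg (G.dist v) h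
    omega
  have dyw : y ≠ w := fun h => by
    have := congrArg (G.dist v) h
    omega
  have dzw' : z ≠ w' := fun h => by
    have := congrArg (G.dist v) h
    omega
  have nyw : ¬ G.Adj y w := fun h => noC4 hG hxy h hw2.symm hxz.symm dxw hne nxw hna
  have nzw' : ¬ G.Adj z w' := fun h =>
    noC4 hG hxz h hw2'.symm hxy.symm dxw' hne.symm nxw' (fun h => hna h.symm)
  rcases h1 (k - 1) (by omega) v u w w' ru hw1 hw1' (by omega) (by omega) (by omega) with h | h
  · exact nyw (h ▸ hw2')
  · exact noC5 hG hxy.symm hxz hw2 h hw2'.symm hne dyw dxw dxw' dzw' hna nyw nxw nxw' nzw'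

lemma F2_of (hG : Br G) {k : ℕ} (h1 : ∀ m, m ≤ k → F1 G m) (h2 : ∀ m, m < k → F2 G m) :
    F2 G k := by
  intro v x y rx hxy hx hy hk
  by_contra hcon
  have ry : G.Reachable v y := rx.trans hxy.reachable
  have R : ∀ w, G.Reachable v w → 1 ≤ G.dist v w → G.dist v w + G.dist w x = G.dist v x →
      G.dist v w + G.dist w y = G.dist v y → False := by
    intro w rw1 hw1 hw2 hw3
    have rwx : G.Reachable w x := rw1.symm.trans rx
    have rwy : G.Reachable w y := rw1.symm.trans ry
    have e1 := rwx.dist_triangle_right v
    have e0 : 1 ≤ G.dist w x := by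
      by_contra h0
      have e2 := eq_of_dist_zero rwx (by omega)
      have e3 := eq_of_dist_zero rwy (by omega)
      exact hxy.ne (e2.symm.trans e3)
    obtain ⟨z, hz1, hz2, hz3⟩ := h2 (k - G.dist v w) (by omega) w x y rwx hxy (by omega) (by omega)
      (by omega)
    refine hcon ⟨z, hz1, hz2, ?_⟩
    have e4 := (rwx.trans hz1.reachable).dist_triangle_right v
    have e5 := adj_le' (v := v) hz1
    omega
  have hk2 : 2 ≤ k := by
    by_contra hk'
    have hk1 : k = 1 := by omega
    exact hcon ⟨v, (dist_eq_one_iff_adj.1 (by omega)).symm, (dist_eq_one_iff_adj.1 (by omega)).symm,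
      by rw [SimpleGraph.dist_self]; omega⟩
  obtain ⟨p, hp0, hpx, hpa, hpl, hpd⟩ := exists_geod rx
  obtain ⟨q, hq0, hqx, hqa, hql, hqd⟩ := exists_geod ry
  have hpr : ∀ i ≤ G.dist v x, G.Reachable v (p i) := by
    intro i hi
    induction i with
    | zero => rw [hp0]
    | succ i ih => exact (ih (by omega)).trans (hpa i (by omega)).reachable
  have hqr : ∀ i ≤ G.dist v y, G.Reachable v (q i) := by
    intro i hi
    induction i with
    | zero => rw [hq0]
    | succ i ih => exact (ih (by omega)).trans (hqa i (by omega)).reachable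
  obtain ⟨i, j, hi1, hi2, hj1, hj2, hd1, hd2⟩ := cyc hG (v := v) (s := G.dist v x)
    (t := G.dist v y) (p := p) (q := q) hp0 hq0 hpa hqa hpl hql (by rw [hpx, hqx]; exact hxy) (by
      intro i hi1 hi2 j hj1 hj2 h
      have e1 := hpl i (by omega)
      have e2 := hql j (by omega)
      have e3 : i = j := by rw [← e1, ← e2, h]
      subst e3
      refine R (p i) (hpr i (by omega)) (by omega) ?_ ?_
      · rw [hpd i (by omega), e1]; omega
      · rw [h, hqd i (by omega), e2]; omega) (by omega)
  have li := hpl i hi2
  have lj := hql j hj2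
  obtain ⟨p', q', hp', hq', hpa', hqb', hpq⟩ := Sh (K := 2 * k) (fun m hm => h1 m (by omega))
    (fun m hm => h2 m (by omega)) i v (p i) (q j) (hpr i hi2) (hqr j hj2) li hi1 (by omega)
    (by omega) (by omega)
  have rp' : G.Reachable p' x := hp'.symm.reachable.trans rx
  have rp'y : G.Reachable p' y := hp'.symm.reachable.trans ry
  have rq'y : G.Reachable q' y := hq'.symm.reachable.trans ry
  have a1 : G.dist p' x + 1 = G.dist v x := by
    have e1 := ((hpr i hi2).symm.trans rx).dist_triangle_right p'
    rw [hpd i hi2] at e1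
    have e2 := rp'.dist_triangle_right v
    rw [adj_dist hp'] at e2
    omega
  have a2 : G.dist q' y + 1 = G.dist v y := by
    have e1 := ((hqr j hj2).symm.trans ry).dist_triangle_right q'
    rw [hqd j hj2] at e1
    have e2 := rq'y.dist_triangle_right v
    rw [adj_dist hq'] at e2
    omega
  have a3 : G.dist p' y + 1 ≠ G.dist v y := by
    intro h
    exact R p' hp'.reachable (by rw [adj_dist hp']) (by rw [adj_dist hp']; omega)
      (by rw [adj_dist hp']; omega)
  have hpq' : G.Adj p' q' := by
    rcases hpq with h | h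
    · exact (a3 (by rw [h]; exact a2)).elim
    · exact h
  have a4 : G.dist p' y = G.dist v y := by
    have e1 := rp'y.dist_triangle_right v
    rw [adj_dist hp'] at e1
    have e2 := hpq'.reachable.dist_triangle_left y
    rw [adj_dist hpq'] at e2
    omega
  obtain ⟨y', hy1, hy2⟩ := exists_parent rq'y (by omega)
  have b1 : G.dist p' y' + 1 = k := by
    have e1 := adj_le (v := p') hy1
    have e2 := hpq'.reachable.dist_triangle_left y'
    rw [adj_dist hpq'] at e2
    omega
  have b2 : G.dist v y' + 1 = k := by
    have e1 := adj_le (v := v) hy1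
    have e2 := hq'.reachable.dist_triangle_left y'
    rw [adj_dist hq'] at e2
    omega
  rcases h1 k le_rfl p' y x y' rp'y hxy.symm hy1.symm (by omega) (by omega) (by omega) with h | h
  · have := congrArg (G.dist v) h
    omega
  · exact hcon ⟨y', h, hy1.symm, b2⟩

lemma F12 (hG : Br G) (k : ℕ) : F1 G k ∧ F2 G k := by
  induction k using Nat.strong_induction_on with
  | _ k ih =>
    have h1 : F1 G k := F1_of hG (fun m hm => (ih m hm).1) (fun m hm => (ih m hm).2)
    refine ⟨h1, F2_of hG ?_ (fun m hm => (ih m hm).2)⟩
    intro m hm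
    rcases hm.lt_or_eq with h | h
    · exact (ih m h).1
    · rw [h]; exact h1

end levels

end Pool.Agent.Y666.Bridged
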