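import Pool.Agent.Y666.Bridged

set_option autoImplicit false

namespace Pool.Agent.Y666.Bridged

open SimpleGraph

variable {V : Type*}

/-- the edges of `G` inside `W`, as a graph on the whole vertex set -/
def Gr (G : SimpleGraph V) (W : Set V) : SimpleGraph V where
  Adj a b := G.Adj a b ∧ a ∈ W ∧ b ∈ W
  symm := ⟨fun _ _ h => ⟨h.1.symm, h.2.2, h.2.1⟩⟩
  loopless := ⟨fun _ h => h.1.ne rfl⟩

lemma Gr_adj {G : SimpleGraph V} {W : Set V} {a b : V} :
    (Gr G W).Adj a b ↔ G.Adj a b ∧ a ∈ W ∧ b ∈ W := Iff.rfl

lemma Gr_mono {G : SimpleGraph V} {W W' : Set V} (h : W ⊆ W') : Gr G W ≤ Gr G W' := by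
  intro a b hab
  exact ⟨hab.1, h hab.2.1, h hab.2.2⟩

lemma walk_le {A : SimpleGraph V} {g : ℕ → V} {s t : ℕ} (hst : s ≤ t)
    (h : ∀ i, s ≤ i → i < t → A.Adj (g i) (g (i + 1))) :
    A.Reachable (g s) (g t) ∧ A.dist (g s) (g t) ≤ t - s := by
  induction t, hst using Nat.le_induction with
  | base => exact ⟨Reachable.refl _, by simp⟩
  | succ t hst ih =>
    obtain ⟨h1, h2⟩ := ih (fun i hi hi' => h i hi (by omega))
    have h3 := h t hst (by omega)
    refine ⟨h1.trans h3.reachable, ?_⟩
    have := adj_le (v := g s) h3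
    omega

/-- cut out a rotated cycle starting at a prescribed vertex -/
lemma rot {A : SimpleGraph V} {n : ℕ} {f : ℕ → V} (hn : 4 ≤ n) (hf0 : f n = f 0)
    (hfa : ∀ i < n, A.Adj (f i) (f (i + 1)))
    (hns : ∀ i j, i < j → j < n → min (j - i) (n - (j - i)) ≤ A.dist (f i) (f j)) {i0 : ℕ}
    (hi0 : i0 < n) :
    ∃ g : ℕ → V, g 0 = f i0 ∧ g n = f i0 ∧ (∀ i < n, A.Adj (g i) (g (i + 1))) ∧
      (∀ i j, i < j → j ≤ n → min (j - i) (n - (j - i)) ≤ A.dist (g i) (g j)) := by
  obtain ⟨g, hg1, hg2⟩ : ∃ g : ℕ → V, (∀ i, i + i0 < n → g i = f (i + i0)) ∧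
      (∀ i, n ≤ i + i0 → g i = f (i + i0 - n)) := by
    refine ⟨fun i => if i + i0 < n then f (i + i0) else f (i + i0 - n), ?_, ?_⟩
    · intro i hi; simp [hi]
    · intro i hi; simp [Nat.not_lt.2 hi]
  refine ⟨g, ?_, ?_, ?_, ?_⟩
  · rw [hg1 0 (by omega), Nat.zero_add]
  · rw [hg2 n (by omega)]; congr 1; omega
  · intro i hi
    rcases Nat.lt_trichotomy (i + i0 + 1) n with h | h | h
    · rw [hg1 i (by omega), hg1 (i + 1) (by omega)]
      have := hfa (i + i0) (by omega)
      have e : i + 1 + i0 = i + i0 + 1 := by omega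
      rw [e]; exact this
    · rw [hg1 i (by omega), hg2 (i + 1) (by omega)]
      have := hfa (i + i0) (by omega)
      have e : i + 1 + i0 - n = 0 := by omega
      rw [e, ← hf0]
      rw [h] at this
      exact this
    · rw [hg2 i (by omega), hg2 (i + 1) (by omega)]
      have := hfa (i + i0 - n) (by omega)
      have e : i + 1 + i0 - n = i + i0 - n + 1 := by omega
      rw [e]; exact this
  · intro i j hij hj
    rcases Nat.lt_or_ge (i + i0) n with h | h <;> rcases Nat.lt_or_ge (j + i0) n with h' | h'
    · rw [hg1 i h, hg1 j h']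
      have := hns (i + i0) (j + i0) (by omega) h'
      omega
    · rw [hg1 i h, hg2 j h']
      rcases Nat.lt_or_ge (j + i0 - n) (i + i0) with h3 | h3
      · have := hns (j + i0 - n) (i + i0) h3 h
        rw [SimpleGraph.dist_comm]
        omega
      · omega
    · omega
    · rw [hg2 i h, hg2 j h']
      have := hns (i + i0 - n) (j + i0 - n) (by omega) (by omega)
      omega

/-- data of an isometric cycle through `x` in `Gr G (insert x W)` -/
structure Cy (G : SimpleGraph V) (W : Set V) (x : V) (n : ℕ) (g : ℕ → V) : Prop where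
  g0 : g 0 = x
  gn : g n = x
  adj : ∀ i < n, (Gr G (insert x W)).Adj (g i) (g (i + 1))
  lb : ∀ i j, i < j → j ≤ n → min (j - i) (n - (j - i)) ≤ (Gr G (insert x W)).dist (g i) (g j)

namespace Cy

variable {G : SimpleGraph V} {W : Set V} {x : V} {n : ℕ} {g : ℕ → V}

lemma refl (h : Cy G W x n g) : Cy G W x n (fun i => g (n - i)) where
  g0 := by simpa using h.gn
  gn := by simpa using h.g0
  adj := by
    intro i hi
    have := (h.adj (n - (i + 1)) (by omega)).symm
    have e : n - (i + 1) + 1 = n - i := by omega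
    rw [e] at this
    exact this
  lb := by
    intro i j hij hj
    have := h.lb (n - j) (n - i) (by omega) (by omega)
    rw [SimpleGraph.dist_comm] at this
    omega

lemma mem_ins (h : Cy G W x n g) (hn : 4 ≤ n) {i : ℕ} (hi : i ≤ n) : g i ∈ insert x W := by
  rcases hi.lt_or_eq with h' | h'
  · exact (h.adj i h').2.1
  · rw [h', h.gn]; exact Set.mem_insert _ _

lemma ne (h : Cy G W x n g) {i j : ℕ} (hij : i < j) (hj : j ≤ n) (hd : j - i < n) : g i ≠ g j := by
  intro e
  have := h.lb i j hij hj
  rw [e, SimpleGraph.dist_self] at this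
  omega

lemma mem (h : Cy G W x n g) (hn : 4 ≤ n) {i : ℕ} (h1 : 1 ≤ i) (hi : i < n) : g i ∈ W := by
  rcases h.mem_ins hn hi.le with h' | h'
  · have := h.ne (i := 0) (j := i) (by omega) (by omega) (by omega)
    rw [h.g0] at this
    exact (this h'.symm).elim
  · exact h'

lemma nadj (h : Cy G W x n g) (hn : 4 ≤ n) {i j : ℕ} (hij : i < j) (hj : j ≤ n)
    (h1 : 2 ≤ j - i) (h2 : 2 ≤ n - (j - i)) : ¬ G.Adj (g i) (g j) := by
  intro e
  have := h.lb i j hij hj
  rw [adj_dist (G := Gr G (insert x W)) (x := g i) (y := g j)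
    ⟨e, h.mem_ins hn (by omega), h.mem_ins hn hj⟩] at this
  omega

lemma gadj (h : Cy G W x n g) {i : ℕ} (hi : i < n) : G.Adj (g i) (g (i + 1)) := (h.adj i hi).1

lemma badj (h : Cy G W x n g) (hn : 4 ≤ n) {i : ℕ} (h1 : 1 ≤ i) (hi : i + 1 < n) :
    (Gr G W).Adj (g i) (g (i + 1)) :=
  ⟨h.gadj (by omega), h.mem hn h1 (by omega), h.mem hn (by omega) hi⟩

/-- dominating vertex facts -/
lemma dom (h : Cy G W x n g) (hn : 4 ≤ n) {p : V} (hxp : G.Adj x p)
    (hdom : ∀ y ∈ W, G.Adj x y → y = p ∨ G.Adj p y) :
    G.Adj p (g 1) ∧ G.Adj p (g (n - 1)) := by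
  have a1 : G.Adj x (g 1) := by
    have := h.gadj (i := 0) (by omega)
    rw [h.g0] at this
    exact this
  have a2 : G.Adj x (g (n - 1)) := by
    have := h.gadj (i := n - 1) (by omega)
    have e : n - 1 + 1 = n := by omega
    rw [e, h.gn] at this
    exact this.symm
  have nn := h.ne (i := 1) (j := n - 1) (by omega) (by omega) (by omega)
  have na := h.nadj hn (i := 1) (j := n - 1) (by omega) (by omega) (by omega) (by omega)
  have m1 := h.mem hn (i := 1) (by omega) (by omega)
  have m2 := h.mem hn (i := n - 1) (by omega) (by omega)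
  rcases hdom _ m1 a1 with e1 | e1 <;> rcases hdom _ m2 a2 with e2 | e2
  · exact (nn (e1.trans e2.symm)).elim
  · rw [← e1] at e2; exact (na e2).elim
  · rw [← e2] at e1; exact (na e1.symm).elim
  · exact ⟨e1, e2⟩

lemma pne (h : Cy G W x n g) (hn : 4 ≤ n) {p : V} (hxp : G.Adj x p)
    (hdom : ∀ y ∈ W, G.Adj x y → y = p ∨ G.Adj p y) {i : ℕ} (h1 : 1 ≤ i) (hi : i < n) :
    p ≠ g i := by
  intro e
  obtain ⟨d1, d2⟩ := h.dom hn hxp hdom
  rcases Nat.lt_or_ge i 2 with h2 | h2
  · have : i = 1 := by omega
    subst this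
    rw [e] at d1
    exact d1.ne rfl
  · rcases Nat.lt_or_ge i (n - 1) with h3 | h3
    · have := h.nadj hn (i := 0) (j := i) (by omega) (by omega) (by omega) (by omega)
      rw [h.g0, ← e] at this
      exact this hxp
    · have : i = n - 1 := by omega
      subst this
      rw [← e] at d2
      exact d2.ne rfl

lemma core (hG : Br G) (hB : Br (Gr G W)) (hx : x ∉ W) (h : Cy G W x n g) (hn : 6 ≤ n) {p : V}
    (hp : p ∈ W) (hxp : G.Adj x p) (hdom : ∀ y ∈ W, G.Adj x y → y = p ∨ G.Adj p y) {m : ℕ}
    (hm1 : 1 ≤ m) (hm2 : 2 * m ≤ n) (hd : (Gr G W).dist p (g m) < m) : False := by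
  have hle : Gr G W ≤ Gr G (insert x W) := Gr_mono (Set.subset_insert _ _)
  obtain ⟨d1, d2⟩ := h.dom (by omega) hxp hdom
  have m1 := h.mem (by omega) (i := 1) (by omega) (by omega)
  have mn := h.mem (by omega) (i := n - 1) (by omega) (by omega)
  have p1 : (Gr G W).Adj p (g 1) := ⟨d1, hp, m1⟩
  have pn : (Gr G W).Adj p (g (n - 1)) := ⟨d2, hp, mn⟩
  have w1 := walk_le (A := Gr G W) (g := g) (s := 1) (t := m) hm1
    (fun i hi hi' => h.badj (by omega) hi (by omega))
  have w2 := walk_le (A := Gr G W) (g := g) (s := m) (t := n - 1) (by omega)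
    (fun i hi hi' => h.badj (by omega) (by omega) (by omega))
  have w3 := walk_le (A := Gr G W) (g := g) (s := m) (t := n - 2) (by omega)
    (fun i hi hi' => h.badj (by omega) (by omega) (by omega))
  have rp : (Gr G W).Reachable p (g m) := p1.reachable.trans w1.1
  have ax : (Gr G (insert x W)).Adj x p := ⟨hxp, Set.mem_insert _ _, Set.mem_insert_of_mem _ hp⟩
  have hnp := h.pne (by omega) hxp hdom hm1 (by omega : m < n)
  -- level of p
  have l0 : m ≤ 1 + (Gr G W).dist p (g m) := by
    have e1 := h.lb 0 m (by omega) (by omega)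
    rw [h.g0] at e1
    have e2 := ax.reachable.dist_triangle_left (g m)
    rw [adj_dist ax] at e2
    have e3 := rp.dist_anti hle
    omega
  have hm3 : 2 ≤ m := by
    by_contra hh
    exact hnp (eq_of_dist_zero rp (by omega))
  have c1 := SimpleGraph.dist_comm (G := Gr G W) (u := g m) (v := p)
  have c2 := SimpleGraph.dist_comm (G := Gr G W) (u := g 1) (v := g m)
  have l1 : (Gr G W).dist (g m) (g 1) = m - 1 := by
    have e1 := h.lb 1 m (by omega) (by omega)
    have e2 := w1.1.dist_anti hle
    omega
  have lb1 : n ≤ 2 * m + 1 := by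
    have e1 := h.lb m (n - 1) (by omega) (by omega)
    have e2 := w2.1.dist_anti hle
    have e3 := adj_le (v := g m) pn
    omega
  have l2 : (Gr G W).dist (g m) (g (n - 1)) = n - 1 - m := by
    have e1 := h.lb m (n - 1) (by omega) (by omega)
    have e2 := w2.1.dist_anti hle
    omega
  rcases (by omega : n = 2 * m + 1 ∨ n = 2 * m) with hnm | hnm
  · have l3 : (Gr G W).dist (g m) (g (n - 2)) = m - 1 := by
      have e1 := h.lb m (n - 2) (by omega) (by omega)
      have e2 := w3.1.dist_anti hle
      omega
    have a3 : (Gr G W).Adj (g (n - 1)) (g (n - 2)) := by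
      have := (h.badj (by omega) (i := n - 2) (by omega) (by omega)).symm
      have e : n - 2 + 1 = n - 1 := by omega
      rw [e] at this
      exact this
    rcases (F12 hB m).1 (g m) (g (n - 1)) p (g (n - 2)) w2.1 pn.symm a3 (by omega) (by omega)
      (by omega) with h' | h'
    · exact h.pne (by omega) hxp hdom (by omega) (by omega) h'
    · have e1 := h.lb 1 (n - 2) (by omega) (by omega)
      have e2 := (p1.symm.reachable.trans h'.reachable).dist_anti hle
      have e3 := p1.symm.reachable.dist_triangle_left (g (n - 2))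
      rw [adj_dist p1.symm, adj_dist h'] at e3
      omega
  · obtain ⟨c, hc1, hc2, hc3⟩ := (F12 hB (m - 1)).2 (g m) p (g 1) rp.symm p1 (by omega) (by omega)
      (by omega)
    obtain ⟨c', hc1', hc2', hc3'⟩ := (F12 hB (m - 1)).2 (g m) p (g (n - 1)) rp.symm pn (by omega)
      (by omega) (by omega)
    have rc : (Gr G W).Reachable c (g m) := hc1.symm.reachable.trans rp
    have rc' : (Gr G W).Reachable c' (g m) := hc1'.symm.reachable.trans rp
    have far : ∀ c : V, (Gr G W).Reachable c (g m) → (Gr G W).dist (g m) c + 1 = m - 1 → c ∈ W →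
        ¬ G.Adj x c := by
      intro c rc hc hcW hxc
      have ac : (Gr G (insert x W)).Adj x c :=
        ⟨hxc, Set.mem_insert _ _, Set.mem_insert_of_mem _ hcW⟩
      have e1 := h.lb 0 m (by omega) (by omega)
      rw [h.g0] at e1
      have e2 := ac.reachable.dist_triangle_left (g m)
      rw [adj_dist ac] at e2
      have e3 := rc.dist_anti hle
      rw [SimpleGraph.dist_comm] at hc
      omega
    have nxc := far c rc hc3 hc1.2.2
    have nxc' := far c' rc' hc3' hc1'.2.2
    have xa : G.Adj x (g 1) := by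
      have := h.gadj (i := 0) (by omega)
      rw [h.g0] at this
      exact this
    have bx : G.Adj (g (n - 1)) x := by
      have := h.gadj (i := n - 1) (by omega)
      have e : n - 1 + 1 = n := by omega
      rw [e, h.gn] at this
      exact this
    have dab := h.ne (i := 1) (j := n - 1) (by omega) (by omega) (by omega)
    have nab := h.nadj (by omega) (i := 1) (j := n - 1) (by omega) (by omega) (by omega) (by omega)
    have dxc : x ≠ c := fun e => hx (e ▸ hc1.2.2)
    have dxc' : x ≠ c' := fun e => hx (e ▸ hc1'.2.2)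
    have dac' : g 1 ≠ c' := fun e => by
      have := congrArg ((Gr G W).dist (g m)) e
      omega
    have dbc : c ≠ g (n - 1) := fun e => by
      have := congrArg ((Gr G W).dist (g m)) e
      omega
    have nac' : ¬ G.Adj (g 1) c' := fun e => noC4 hG xa e hc2'.1.symm bx dxc' dab nxc' nab
    have ncb : ¬ G.Adj c (g (n - 1)) := fun e => noC4 hG xa hc2.1 e bx dxc dab nxc nab
    rcases (F12 hB (m - 1)).1 (g m) p c c' rp.symm hc1 hc1' (by omega) (by omega) (by omega)
      with h' | h'
    · exact nac' (h' ▸ hc2.1)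
    · exact noC5 hG xa hc2.1 h'.1 hc2'.1.symm bx dxc dxc' dac' dab dbc nxc nxc' nac' nab ncb

end Cy

/-- adding a dominated vertex preserves bridgedness -/
lemma Br_insert {G : SimpleGraph V} (hG : Br G) {W : Set V} (hB : Br (Gr G W)) {x : V}
    (hx : x ∉ W) (hdom : (∀ y ∈ W, ¬ G.Adj x y) ∨
      ∃ p ∈ W, G.Adj x p ∧ ∀ y ∈ W, G.Adj x y → y = p ∨ G.Adj p y) :
    Br (Gr G (insert x W)) := by
  intro n f hn hf0 hfa hfi
  by_contra hcon
  have hns : ∀ i j, i < j → j < n → min (j - i) (n - (j - i)) ≤
      (Gr G (insert x W)).dist (f i) (f j) := by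
    intro i j hij hj
    by_contra hh
    exact hcon ⟨i, j, hij, hj, Nat.not_le.1 hh⟩
  have hle : Gr G W ≤ Gr G (insert x W) := Gr_mono (Set.subset_insert _ _)
  by_cases hxf : ∃ i0 < n, f i0 = x
  · obtain ⟨i0, hi0, hfx⟩ := hxf
    obtain ⟨g, g0, gn, ga, gl⟩ := rot hn hf0 hfa hns hi0
    have h : Cy G W x n g := ⟨g0.trans hfx, gn.trans hfx, ga, gl⟩
    rcases hdom with hd | ⟨p, hp, hxp, hd⟩
    · have := h.gadj (i := 0) (by omega)
      rw [h.g0] at this
      exact hd _ (h.mem hn (i := 1) (by omega) (by omega)) this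
    · rcases (by omega : n = 4 ∨ n = 5 ∨ 6 ≤ n) with h4 | h5 | h6
      · subst h4
        have a3 := h.gadj (i := 3) (by omega)
        rw [show 3 + 1 = 4 from rfl, h.gn, ← h.g0] at a3
        exact noC4 hG (h.gadj (i := 0) (by omega)) (h.gadj (i := 1) (by omega))
          (h.gadj (i := 2) (by omega)) a3 (h.ne (i := 0) (j := 2) (by omega) (by omega) (by omega))
          (h.ne (i := 1) (j := 3) (by omega) (by omega) (by omega))
          (h.nadj (by omega) (i := 0) (j := 2) (by omega) (by omega) (by omega) (by omega))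
          (h.nadj (by omega) (i := 1) (j := 3) (by omega) (by omega) (by omega) (by omega))
      · subst h5
        have a4 := h.gadj (i := 4) (by omega)
        rw [show 4 + 1 = 5 from rfl, h.gn, ← h.g0] at a4
        exact noC5 hG (h.gadj (i := 0) (by omega)) (h.gadj (i := 1) (by omega))
          (h.gadj (i := 2) (by omega)) (h.gadj (i := 3) (by omega)) a4
          (h.ne (i := 0) (j := 2) (by omega) (by omega) (by omega))
          (h.ne (i := 0) (j := 3) (by omega) (by omega) (by omega))
          (h.ne (i := 1) (j := 3) (by omega) (by omega) (by omega))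
          (h.ne (i := 1) (j := 4) (by omega) (by omega) (by omega))
          (h.ne (i := 2) (j := 4) (by omega) (by omega) (by omega))
          (h.nadj (by omega) (i := 0) (j := 2) (by omega) (by omega) (by omega) (by omega))
          (h.nadj (by omega) (i := 0) (j := 3) (by omega) (by omega) (by omega) (by omega))
          (h.nadj (by omega) (i := 1) (j := 3) (by omega) (by omega) (by omega) (by omega))
          (h.nadj (by omega) (i := 1) (j := 4) (by omega) (by omega) (by omega) (by omega))
          (h.nadj (by omega) (i := 2) (j := 4) (by omega) (by omega) (by omega) (by omega))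
      · obtain ⟨d1, d2⟩ := h.dom hn hxp hd
        obtain ⟨F, hF0, hFn, hF⟩ : ∃ F : ℕ → V, F 0 = p ∧ F n = p ∧
            ∀ i, 1 ≤ i → i < n → F i = g i := by
          refine ⟨fun i => if i = 0 then p else if i = n then p else g i, by simp, by simp, ?_⟩
          intro i hi hi'
          simp [Nat.one_le_iff_ne_zero.1 hi, hi'.ne]
        obtain ⟨i, j, hij, hj, hdd⟩ := hB n F hn (hFn.trans hF0.symm) (by
          intro i hi
          rcases Nat.eq_zero_or_pos i with h0 | h0
          · subst h0
            rw [hF0, hF (0 + 1) (by omega) (by omega)]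
            exact ⟨d1, hp, h.mem hn (by omega) (by omega)⟩
          · rcases Nat.lt_or_ge (i + 1) n with h1 | h1
            · rw [hF i h0 hi, hF (i + 1) (by omega) h1]
              exact h.badj hn h0 h1
            · have e : i = n - 1 := by omega
              rw [hF i h0 hi, (by omega : i + 1 = n), hFn, e]
              exact ⟨d2.symm, h.mem hn (by omega) (by omega), hp⟩) (by
          intro i hi j hj hh
          rcases Nat.eq_zero_or_pos i with h0 | h0 <;> rcases Nat.eq_zero_or_pos j with h1 | h1
          · omega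
          · subst h0
            rw [hF0, hF j h1 hj] at hh
            exact (h.pne hn hxp hd h1 hj hh).elim
          · subst h1
            rw [hF0, hF i h0 hi] at hh
            exact (h.pne hn hxp hd h0 hi hh.symm).elim
          · rw [hF i h0 hi, hF j h1 hj] at hh
            rcases Nat.lt_trichotomy i j with h2 | h2 | h2
            · exact (h.ne h2 hj.le (by omega) hh).elim
            · exact h2
            · exact (h.ne h2 hi.le (by omega) hh.symm).elim)
        rcases Nat.eq_zero_or_pos i with h0 | h0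
        · subst h0
          rw [hF0, hF j (by omega) hj] at hdd
          rcases Nat.lt_or_ge n (2 * j) with h2 | h2
          · refine Cy.core hG hB hx h.refl h6 hp hxp hd (m := n - j) (by omega) (by omega) ?_
            have e : n - (n - j) = j := by omega
            simp only [e]
            omega
          · exact Cy.core hG hB hx h h6 hp hxp hd (m := j) (by omega) (by omega) (by omega)
        · rw [hF i h0 (by omega), hF j (by omega) hj] at hdd
          have w1 := walk_le (A := Gr G W) (g := g) (s := i) (t := j) hij.le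
            (fun k hk hk' => h.badj hn (by omega) (by omega))
          have e1 := h.lb i j hij hj.le
          have e2 := w1.1.dist_anti hle
          omega
  · push Not at hxf
    have hW : ∀ i ≤ n, f i ∈ W := by
      intro i hi
      rcases hi.lt_or_eq with h | h
      · rcases (hfa i h).2.1 with h' | h'
        · exact (hxf i h h').elim
        · exact h'
      · rw [h, hf0]
        rcases (hfa 0 (by omega)).2.1 with h' | h'
        · exact (hxf 0 (by omega) h').elim
        · exact h'
    have hfa' : ∀ i < n, (Gr G W).Adj (f i) (f (i + 1)) := fun i hi =>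
      ⟨(hfa i hi).1, hW i hi.le, hW (i + 1) hi⟩
    obtain ⟨i, j, hij, hj, hdd⟩ := hB n f hn hf0 hfa' hfi
    have w1 := walk_le (A := Gr G W) (g := f) (s := i) (t := j) hij.le
      (fun k hk hk' => hfa' k (by omega))
    have e1 := hns i j hij hj
    have e2 := w1.1.dist_anti hle
    omega

end Pool.Agent.Y666.Bridged
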